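import Pool.Agent.Helper36.EV.Goals

/-!
Packet HIGH of the projects KV and RF: uniform bounds in all norms.
-/

namespace Pool.Agent.Helper65.EV

open Set Filter Topology
open Pool.Agent.Helper36.EV

theorem high : Pool.Agent.Helper36.EV.G_HIGH := by
  intro hGW X H _ _ _ _ S E m
  have key : ∀ j : ℕ, ∃ L, ∀ n h, E.Sol n h → ∀ t ∈ Icc 0 E.τ,
      S.q (E.s + j) (E.ap n h t) ≤ L := by
    intro j
    induction j with
    | zero => exact ⟨E.R, fun n h hs t ht => (hs.adm t ht).1⟩
    | succ j ih =>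
      obtain ⟨L, hL⟩ := ih
      obtain ⟨C, hC⟩ := E.F3 (E.s + (j + 1)) (by omega) L
      refine ⟨Real.exp (2 * max C 0 * E.τ) * (S.q (E.s + (j + 1)) E.u0 + 2 * max C 0 * E.τ),
        fun n h hs t ht => ?_⟩
      have hC0 : 0 ≤ max C 0 := le_max_right _ _
      have hτ := E.hτ
      have h1 := hGW.1 (fun t => S.q (E.s + (j + 1)) (E.ap n h t))
        (fun t => 2 * S.B (E.s + (j + 1)) (E.ap n h t) (S.J n (S.ι (E.F t (E.sap n h t)))))
        (2 * max C 0) (2 * max C 0) E.τ (by positivity) (by positivity) ?_ t ht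
      · refine h1.trans ?_
        have e0 : E.ap n h 0 = E.u0 := by
          unfold Evo.ap
          rw [hs.h0, map_zero, add_zero]
        simp only [e0]
        have h2 : 0 ≤ S.q (E.s + (j + 1)) E.u0 := S.q_nonneg _ _
        have h3 : t ≤ E.τ := ht.2
        have h4 : 0 ≤ t := ht.1
        gcongr
      · intro t ht
        refine ⟨S.hasDeriv_q n (E.s + (j + 1)) E.u0 (hs.der t ht), ?_⟩
        have ht' : t ∈ Icc 0 E.T := ⟨ht.1, ht.2.trans E.hτT⟩
        have h5 : S.B (E.s + (j + 1)) (E.ap n h t) (S.J n (S.ι (E.F t (E.sap n h t)))) =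
            S.B (E.s + (j + 1)) (E.sap n h t) (E.F t (E.sap n h t)) :=
          (S.symJ n (E.s + (j + 1)) (E.ap n h t) (E.F t (E.sap n h t))).symm
        have h6 := hC t ht' (E.sap n h t) (hs.adm' t ht).1 (hs.adm' t ht).2
          ((S.conJ n _ (E.ap n h t)).trans (hL n h hs t ht))
        have h7 : S.q (E.s + (j + 1)) (E.sap n h t) ≤ S.q (E.s + (j + 1)) (E.ap n h t) :=
          S.conJ n _ (E.ap n h t)
        have h8 : 0 ≤ S.q (E.s + (j + 1)) (E.sap n h t) := S.q_nonneg _ _
        have h9 : C * (1 + S.q (E.s + (j + 1)) (E.sap n h t)) ≤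
            max C 0 * (1 + S.q (E.s + (j + 1)) (E.ap n h t)) :=
          mul_le_mul (le_max_left _ _) (by linarith) (by linarith) hC0
        simp only [h5]
        linarith
  obtain ⟨L, hL⟩ := key m
  refine ⟨L, fun n h hs t ht => ?_⟩
  have h1 : S.q m (E.ap n h t) ≤ L :=
    (S.q_mono (Nat.le_add_left m E.s) _).trans (hL n h hs t ht)
  exact ⟨h1, (S.conJ n m (E.ap n h t)).trans h1⟩

end Pool.Agent.Helper65.EV
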